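import Pool.Agent.W217.BE.Stm

set_option autoImplicit false

namespace Pool.Agent.W414.BEGRD

open Pool.Agent.W217.BE

section

variable {A : Type} [CommRing A]

lemma fse_rename (k : ℕ) (q : MvPolynomial (Fin k) A) :
    MvPolynomial.finSuccEquiv A k (MvPolynomial.rename Fin.succ q) = Polynomial.C q := by
  induction q using MvPolynomial.induction_on with
  | C a =>
    rw [MvPolynomial.rename_C]
    exact ((AlgEquiv.symm_apply_eq _).1
      (RingHom.congr_fun (MvPolynomial.finSuccEquiv_comp_C_eq_C (R := A) k) a)).symm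
  | add p q hp hq => rw [map_add, map_add, hp, hq, map_add]
  | mul_X p i hp =>
    rw [map_mul, map_mul, hp, MvPolynomial.rename_X, MvPolynomial.finSuccEquiv_X_succ, map_mul]

lemma symm_C (k : ℕ) (q : MvPolynomial (Fin k) A) :
    (MvPolynomial.finSuccEquiv A k).symm (Polynomial.C q) = MvPolynomial.rename Fin.succ q := by
  rw [AlgEquiv.symm_apply_eq, fse_rename]

lemma symm_X (k : ℕ) :
    (MvPolynomial.finSuccEquiv A k).symm Polynomial.X =
      (MvPolynomial.X 0 : MvPolynomial (Fin (k + 1)) A) := by
  rw [AlgEquiv.symm_apply_eq, MvPolynomial.finSuccEquiv_X_zero]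

lemma const_symm (k : ℕ) (t : Polynomial (MvPolynomial (Fin k) A)) :
    MvPolynomial.constantCoeff ((MvPolynomial.finSuccEquiv A k).symm t) =
      MvPolynomial.constantCoeff (Polynomial.evalRingHom 0 t) := by
  have h : (MvPolynomial.constantCoeff (R := A) (σ := Fin (k + 1))).comp
      ((MvPolynomial.finSuccEquiv A k).symm : Polynomial (MvPolynomial (Fin k) A) →+*
        MvPolynomial (Fin (k + 1)) A) =
      (MvPolynomial.constantCoeff (R := A) (σ := Fin k)).comp (Polynomial.evalRingHom 0) := by
    refine Polynomial.ringHom_ext (fun q => ?_) ?_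
    · simp only [RingHom.comp_apply, RingHom.coe_coe]
      rw [symm_C]
      simp
    · simp only [RingHom.comp_apply, RingHom.coe_coe]
      rw [symm_X]
      simp
  exact RingHom.congr_fun h t

end

lemma subs (hI : ISO) {A κ : Type} [CommRing A] [Field κ] (χ : A →+* κ)
    (M : Type) [AddCommGroup M] [Module A M] (b : ℕ → ℕ)
    (h : ∀ N : Submodule A M, NZ χ N → HB χ N b) (N : Submodule A M)
    (N' : Submodule A N) (hz : NZ χ N') : HB χ N' b := by
  have hinj : Function.Injective N.subtype := N.injective_subtype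
  let ψ : N' ≃ₗ[A] N'.map N.subtype := Submodule.equivMapOfInjective N.subtype hinj N'
  have h1 : NZ χ (N'.map N.subtype) := by
    obtain ⟨x, hx⟩ := hz
    refine ⟨ψ x, fun s hs h0 => hx s hs ?_⟩
    rw [← map_smul] at h0
    exact (LinearEquiv.map_eq_zero_iff ψ).1 h0
  exact hI A A κ (RingEquiv.refl A) χ χ (N'.map N.subtype) N' ψ.symm.toAddEquiv b
    (fun _ => rfl) (fun s x => ψ.symm.map_smul s x) (h _ h1)

theorem main : GRCUT → STEP → ISO → GRD := by
  intro hG hS hI A κ _ _ _ χ c k
  induction k with
  | zero =>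
    intro M _ _ _ _ _ ℳ _ _ hnz hN
    have h3 : NZ χ (⊤ : Submodule A M) := by
      obtain ⟨x, hx⟩ := hnz
      exact ⟨⟨x, trivial⟩, fun s hs h => hx s hs (congrArg Subtype.val h)⟩
    refine hI A (MvPolynomial (Fin 0) A) κ (MvPolynomial.isEmptyRingEquiv A (Fin 0)).symm χ
      (χ.comp MvPolynomial.constantCoeff) (⊤ : Submodule A M) M
      (Submodule.topEquiv : (⊤ : Submodule A M) ≃ₗ[A] M).toAddEquiv _ ?_ ?_ (hN ⊤ h3)
    · intro s
      have : (MvPolynomial.isEmptyRingEquiv A (Fin 0)).symm s = MvPolynomial.C s := rfl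
      rw [this, RingHom.comp_apply, MvPolynomial.constantCoeff_C]
    · intro s x
      have : (MvPolynomial.isEmptyRingEquiv A (Fin 0)).symm s =
        algebraMap A (MvPolynomial (Fin 0) A) s := rfl
      rw [this, algebraMap_smul]
      rfl
  | succ k ih =>
    intro M _ _ _ _ _ ℳ hint hsh hnz hN
    let e : MvPolynomial (Fin (k + 1)) A ≃ₐ[A] Polynomial (MvPolynomial (Fin k) A) :=
      MvPolynomial.finSuccEquiv A k
    let eh : Polynomial (MvPolynomial (Fin k) A) →+* MvPolynomial (Fin (k + 1)) A :=
      (e.symm : Polynomial (MvPolynomial (Fin k) A) →+* MvPolynomial (Fin (k + 1)) A)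
    obtain ⟨N₁, m₁, t₁, 𝒩₁, π₁, ι₁, s₁, a1, a2, a3, a4, a5, a6, a7, a8, -⟩ :=
      hG A κ χ k M ℳ hint hsh hnz false
    obtain ⟨N₂, m₂, t₂, 𝒩₂, π₂, ι₂, s₂, c1, c2, c3, c4, c5, c6, c7, -, c9⟩ :=
      hG A κ χ k M ℳ hint hsh hnz true
    have hno : IsNoetherian A M := isNoetherian_of_isNoetherianRing_of_finite A M
    have f1 : Module.Finite A N₁ := inferInstance
    have f2 : Module.Finite A N₂ := inferInstance
    have H1 : HB (χ.comp (MvPolynomial.constantCoeff (R := A) (σ := Fin k))) N₁
        (fun i => (c + k).choose i) :=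
      ih N₁ 𝒩₁ a1 a2 a3 (subs hI χ M _ hN N₁)
    have H2 : HB (χ.comp (MvPolynomial.constantCoeff (R := A) (σ := Fin k))) N₂
        (fun i => (c + k).choose i) :=
      ih N₂ 𝒩₂ c1 c2 c3 (subs hI χ M _ hN N₂)
    let iX : Module (Polynomial (MvPolynomial (Fin k) A)) M := Module.compHom M eh
    let iC : Module (MvPolynomial (Fin k) A) M := Module.compHom M (eh.comp Polynomial.C)
    have iS : IsScalarTower (MvPolynomial (Fin k) A) (Polynomial (MvPolynomial (Fin k) A)) M := by
      refine ⟨fun a p x => ?_⟩
      change eh (a • p) • x = eh (Polynomial.C a) • (eh p • x)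
      rw [Polynomial.smul_eq_C_mul, map_mul, mul_smul]
    have hC : ∀ (q : MvPolynomial (Fin k) A) (x : M), q • x = MvPolynomial.rename Fin.succ q • x := by
      intro q x
      change eh (Polynomial.C q) • x = _
      congr 1
      exact symm_C k q
    have hX : ∀ x : M, (Polynomial.X : Polynomial (MvPolynomial (Fin k) A)) • x =
        (MvPolynomial.X 0 : MvPolynomial (Fin (k + 1)) A) • x := by
      intro x
      change eh Polynomial.X • x = _
      congr 1
      exact symm_X k
    let ι₁' : N₁ →ₗ[MvPolynomial (Fin k) A] M :=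
      { toFun := ι₁, map_add' := map_add ι₁, map_smul' := fun q x => by
          rw [a6, RingHom.id_apply, hC] }
    let ι₂' : N₂ →ₗ[MvPolynomial (Fin k) A] M :=
      { toFun := ι₂, map_add' := map_add ι₂, map_smul' := fun q x => by
          rw [c6, RingHom.id_apply, hC] }
    let π₁' : M →ₗ[MvPolynomial (Fin k) A] N₁ :=
      { toFun := π₁, map_add' := map_add π₁, map_smul' := fun q x => by
          rw [hC, a7, RingHom.id_apply] }
    let π₂' : M →ₗ[MvPolynomial (Fin k) A] N₂ :=
      { toFun := π₂, map_add' := map_add π₂, map_smul' := fun q x => by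
          rw [hC, c7, RingHom.id_apply] }
    have H := hS (MvPolynomial (Fin k) A) κ
      (χ.comp (MvPolynomial.constantCoeff (R := A) (σ := Fin k))) M N₁ N₂ ι₁' π₁' ι₂' π₂'
      (MvPolynomial.C s₁) (MvPolynomial.C s₂) (fun i => (c + k).choose i)
      (fun i => (c + k).choose i)
      (by rw [RingHom.comp_apply, MvPolynomial.constantCoeff_C]; exact a4)
      (by rw [RingHom.comp_apply, MvPolynomial.constantCoeff_C]; exact c4)
      (fun x => by rw [hX]; exact a8 rfl x)
      (fun x => by
        change π₁ (ι₁ x) = MvPolynomial.C s₁ • x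
        rw [a5, ← MvPolynomial.algebraMap_eq, algebraMap_smul])
      (fun x => by
        rw [hX]; exact c9 rfl x)
      (fun x => by
        change π₂ (ι₂ x) = MvPolynomial.C s₂ • x
        rw [c5, ← MvPolynomial.algebraMap_eq, algebraMap_smul])
      H1 H2
    have hb : (fun i => (c + (k + 1)).choose i) =
        (fun i => (c + k).choose i + if i = 0 then 0 else (c + k).choose (i - 1)) := by
      funext i
      cases i with
      | zero => simp
      | succ i =>
        have : c + (k + 1) = (c + k) + 1 := by ring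
        rw [this, Nat.choose_succ_succ]
        simp [add_comm]
    rw [hb]
    exact hI (Polynomial (MvPolynomial (Fin k) A)) (MvPolynomial (Fin (k + 1)) A) κ
      e.symm.toRingEquiv _ (χ.comp (MvPolynomial.constantCoeff (R := A) (σ := Fin (k + 1)))) M M
      (AddEquiv.refl M) _
      (fun t => by
        change χ (MvPolynomial.constantCoeff ((MvPolynomial.finSuccEquiv A k).symm t)) =
          χ (MvPolynomial.constantCoeff (Polynomial.evalRingHom 0 t))
        rw [const_symm])
      (fun s x => rfl) H

end Pool.Agent.W414.BEGRD
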