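import Pool.Agent.W217.BE.Stm2

set_option autoImplicit false

namespace Pool.Agent.W414.BEQGR

open Pool.Agent.W217.BE

theorem main : QGR := by
  intro A I _ _ M M' _ _ _ _ D φ ρ hD hφ hρ hker
  letI : DirectSum.Decomposition D := hD.chooseDecomposition
  have hex : ∀ b : I, ∃ p : M →ₗ[A] M, (∀ x, x ∈ D b → p x = x) ∧
      (∀ i x, x ∈ D i → i ≠ b → p x = 0) := by
    intro b
    refine ⟨(D b).subtype ∘ₗ (DirectSum.component A I (fun i => D i) b) ∘ₗ
      (DirectSum.decomposeLinearEquiv D).toLinearMap, ?_, ?_⟩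
    · intro x hx
      exact DirectSum.decompose_of_mem_same D hx
    · intro i x hx hi
      exact DirectSum.decompose_of_mem_ne D hx hi
  have hsup : (⨆ i, D i) = ⊤ := hD.submodule_iSup_eq_top
  rw [DirectSum.isInternal_submodule_iff_iSupIndep_and_iSup_eq_top]
  constructor
  · intro b
    obtain ⟨p, hp1, hp2⟩ := hex b
    have hcomm : ∀ x, p (φ x) = φ (p x) := by
      have hle : (⨆ i, D i) ≤ LinearMap.ker (p ∘ₗ φ - φ ∘ₗ p) := by
        refine iSup_le (fun i x hx => ?_)
        rw [LinearMap.mem_ker, LinearMap.sub_apply, LinearMap.comp_apply, LinearMap.comp_apply]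
        by_cases h : i = b
        · subst h
          rw [hp1 x hx, hp1 _ (hφ i x hx), sub_self]
        · rw [hp2 i x hx h, hp2 i _ (hφ i x hx) h, map_zero, sub_self]
      intro x
      have hx : x ∈ LinearMap.ker (p ∘ₗ φ - φ ∘ₗ p) := hle (hsup ▸ Submodule.mem_top)
      rw [LinearMap.mem_ker, LinearMap.sub_apply, LinearMap.comp_apply, LinearMap.comp_apply,
        sub_eq_zero] at hx
      exact hx
    have hrest : (⨆ j, ⨆ (_ : j ≠ b), D j) ≤ LinearMap.ker p := by
      refine iSup_le (fun j => iSup_le (fun hj x hx => ?_))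
      exact LinearMap.mem_ker.2 (hp2 j x hx hj)
    rw [Submodule.disjoint_def]
    rintro y ⟨x, hx, rfl⟩ hy
    have hy' : ρ x ∈ (⨆ j, ⨆ (_ : j ≠ b), D j).map ρ := by
      rw [Submodule.map_iSup]
      simp only [Submodule.map_iSup]
      exact hy
    obtain ⟨x', hx', hxx⟩ := hy'
    have h1 : x - x' ∈ LinearMap.range φ := by
      rw [← hker, LinearMap.mem_ker, map_sub, hxx, sub_self]
    obtain ⟨z, hz⟩ := h1
    have h2 : x = φ (p z) := by
      rw [← hcomm, hz, map_sub, hp1 x hx, LinearMap.mem_ker.1 (hrest hx'), sub_zero]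
    have h3 : x ∈ LinearMap.ker ρ := by
      rw [hker, h2]
      exact ⟨_, rfl⟩
    exact LinearMap.mem_ker.1 h3
  · rw [← Submodule.map_iSup, hsup, Submodule.map_top, LinearMap.range_eq_top]
    exact hρ

end Pool.Agent.W414.BEQGR
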